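import Pool.Agent.Lib.MP_3ee548_nt.RS.Iface

/-!
# SHIFT (helper16)

The number of pairs with `|s i - s j - z| ≤ 1/T` is at most four times the number of pairs
with `|s i - s j| ≤ 1/T`: bins of length `1/T` and `2ab ≤ a^2 + b^2`.
-/

set_option autoImplicit false

open scoped BigOperators
open Classical

namespace Pool.Agent.Lib.MP_3ee548_nt.RS.H16

variable {α : Type}

/-- The size of the bin `a`. -/
noncomputable def cnt (k : α → ℤ) (D : Finset α) (a : ℤ) : ℕ := (D.filter (fun i => k i = a)).card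

theorem cnt_eq_zero {k : α → ℤ} {D : Finset α} {a : ℤ} (h : a ∉ D.image k) : cnt k D a = 0 := by
  unfold cnt
  rw [Finset.card_eq_zero, Finset.filter_eq_empty_iff]
  intro i hi he
  exact h (Finset.mem_image.2 ⟨i, hi, he⟩)

/-- Pairs with `k i = k j + m`. -/
theorem card_pairs (k : α → ℤ) (D : Finset α) (m : ℤ) :
    ((D ×ˢ D).filter (fun p : α × α => k p.1 = k p.2 + m)).card =
      ∑ a ∈ D.image k, cnt k D a * cnt k D (a + m) := by
  have h1 : ((D ×ˢ D).filter (fun p : α × α => k p.1 = k p.2 + m)).card =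
      ∑ j ∈ D, cnt k D (k j + m) := by
    rw [Finset.card_filter, Finset.sum_product_right]
    refine Finset.sum_congr rfl fun j _ => ?_
    unfold cnt
    rw [Finset.card_filter]
  rw [h1, ← Finset.sum_fiberwise_of_maps_to (s := D) (t := D.image k) (g := k)
    (fun i hi => Finset.mem_image_of_mem k hi)]
  refine Finset.sum_congr rfl fun a _ => ?_
  rw [Finset.sum_congr rfl (g := fun _ => cnt k D (a + m))
    (fun j hj => by rw [(Finset.mem_filter.1 hj).2]), Finset.sum_const, smul_eq_mul]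
  rfl

theorem sum_sq_shift (k : α → ℤ) (D : Finset α) (m : ℤ) :
    ∑ a ∈ D.image k, cnt k D (a + m) ^ 2 ≤ ∑ a ∈ D.image k, cnt k D a ^ 2 := by
  have h1 : ∑ a ∈ D.image k, cnt k D (a + m) ^ 2 =
      ∑ b ∈ (D.image k).image (fun a => a + m), cnt k D b ^ 2 :=
    (Finset.sum_image (s := D.image k) (f := fun b => cnt k D b ^ 2) (g := fun a => a + m)
      (fun x _ y _ h => add_right_cancel h)).symm
  rw [h1]
  refine Finset.sum_le_sum_of_ne_zero fun b _ hb => ?_
  by_contra hc
  exact hb (by rw [cnt_eq_zero hc]; rfl)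

theorem card_pairs_le (k : α → ℤ) (D : Finset α) (m : ℤ) :
    ((D ×ˢ D).filter (fun p : α × α => k p.1 = k p.2 + m)).card ≤
      ((D ×ˢ D).filter (fun p : α × α => k p.1 = k p.2)).card := by
  have h0 : ((D ×ˢ D).filter (fun p : α × α => k p.1 = k p.2)).card =
      ∑ a ∈ D.image k, cnt k D a ^ 2 := by
    have := card_pairs k D 0
    simp only [add_zero] at this
    rw [this]
    exact Finset.sum_congr rfl fun a _ => by ring
  rw [card_pairs, h0]
  have h1 : 2 * ∑ a ∈ D.image k, cnt k D a * cnt k D (a + m) ≤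
      ∑ a ∈ D.image k, cnt k D a ^ 2 + ∑ a ∈ D.image k, cnt k D (a + m) ^ 2 := by
    rw [Finset.mul_sum, ← Finset.sum_add_distrib]
    refine Finset.sum_le_sum fun a _ => ?_
    have := two_mul_le_add_sq (cnt k D a) (cnt k D (a + m))
    linarith
  have h2 := sum_sq_shift k D m
  omega

/-- SHIFT. -/
theorem shift : ShiftStatement := by
  intro α s D T z hT
  set k : α → ℤ := fun i => ⌊T * s i⌋ with hk
  set S := ((D ×ˢ D).filter (fun p : α × α => k p.1 = k p.2)).card with hS
  have hS1 : (S : ℝ) ≤ PC s D T := by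
    unfold PC
    rw [hS]
    refine Nat.cast_le.2 (Finset.card_le_card ?_)
    intro p hp
    rw [Finset.mem_filter] at hp ⊢
    refine ⟨hp.1, ?_⟩
    have h1 := Int.abs_sub_lt_one_of_floor_eq_floor hp.2
    rw [← mul_sub, abs_mul, abs_of_pos hT] at h1
    rw [le_div_iff₀ hT, mul_comm]
    exact h1.le
  have hS2 : PCz s D T z ≤ 4 * (S : ℝ) := by
    unfold PCz
    have hsub : (D ×ˢ D).filter (fun p : α × α => |s p.1 - s p.2 - z| ≤ 1 / T) ⊆
        (Finset.Icc (-1 : ℤ) 2).biUnion
          (fun l => (D ×ˢ D).filter (fun p : α × α => k p.1 = k p.2 + (⌊T * z⌋ + l))) := by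
      intro p hp
      rw [Finset.mem_filter] at hp
      rw [Finset.mem_biUnion]
      refine ⟨k p.1 - k p.2 - ⌊T * z⌋, ?_, ?_⟩
      · have h1 : |T * s p.1 - T * s p.2 - T * z| ≤ 1 := by
          rw [← mul_sub, ← mul_sub, abs_mul, abs_of_pos hT]
          have := hp.2
          rw [le_div_iff₀ hT, mul_comm] at this
          exact this
        rw [abs_le] at h1
        have a1 := Int.floor_le (T * s p.1)
        have a2 := Int.lt_floor_add_one (T * s p.1)
        have b1 := Int.floor_le (T * s p.2)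
        have b2 := Int.lt_floor_add_one (T * s p.2)
        have c1 := Int.floor_le (T * z)
        have c2 := Int.lt_floor_add_one (T * z)
        rw [Finset.mem_Icc]
        constructor
        · have : (-2 : ℝ) < ((⌊T * s p.1⌋ - ⌊T * s p.2⌋ - ⌊T * z⌋ : ℤ) : ℝ) := by
            push_cast
            linarith [h1.1]
          have h3 : (-2 : ℤ) < ⌊T * s p.1⌋ - ⌊T * s p.2⌋ - ⌊T * z⌋ := by exact_mod_cast this
          simp only [hk]
          omega
        · have : ((⌊T * s p.1⌋ - ⌊T * s p.2⌋ - ⌊T * z⌋ : ℤ) : ℝ) < 3 := by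
            push_cast
            linarith [h1.2]
          have h3 : ⌊T * s p.1⌋ - ⌊T * s p.2⌋ - ⌊T * z⌋ < (3 : ℤ) := by exact_mod_cast this
          simp only [hk]
          omega
      · rw [Finset.mem_filter]
        refine ⟨hp.1, ?_⟩
        ring
    have h1 := (Finset.card_le_card hsub).trans Finset.card_biUnion_le
    have h2 : ∑ l ∈ Finset.Icc (-1 : ℤ) 2,
        ((D ×ˢ D).filter (fun p : α × α => k p.1 = k p.2 + (⌊T * z⌋ + l))).card ≤
        ∑ _l ∈ Finset.Icc (-1 : ℤ) 2, S :=
      Finset.sum_le_sum fun l _ => card_pairs_le k D _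
    have h3 : ∑ _l ∈ Finset.Icc (-1 : ℤ) 2, S = 4 * S := by
      rw [Finset.sum_const, smul_eq_mul]
      rfl
    have h4 := h1.trans (h2.trans h3.le)
    exact_mod_cast h4
  linarith

end Pool.Agent.Lib.MP_3ee548_nt.RS.H16
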